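import Pool.Agent.Lib.MP_558e64_nt.Sharp

namespace Pool.Agent.Results.MP_558e64_nt.Main

open Finset Pool.Agent.Lib.MP_558e64_nt.Sharp

/-- The sequence `a(0) = 1`,
`a(n) = ∑_{j=0}^{n-1} C(n,j) C(n-1,j) C(n+j-1,j)^2` for `n ≥ 1`. -/
def a (n : ℕ) : ℕ :=
  if n = 0 then 1
  else ∑ j ∈ Finset.range n,
    Nat.choose n j * Nat.choose (n - 1) j * Nat.choose (n + j - 1) j ^ 2

/-- For every prime `p ≥ 5`, `p^5` divides `a(p) - 1`, and more precisely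
`a(p) ≡ 1 - 2 p^5 B_{p-5} (mod p^6)`: the rational number `a(p) - (1 - 2 p^5 B_{p-5})`, in lowest
terms, has a numerator divisible by `p^6`. -/
theorem result : ∀ p : ℕ, p.Prime → 5 ≤ p →
    (p : ℤ) ^ 5 ∣ (a p : ℤ) - 1 ∧
    (p : ℤ) ^ 6 ∣ ((a p : ℚ) - (1 - 2 * (p : ℚ) ^ 5 * bernoulli (p - 5))).num := by
  intro p hp h5
  have ha : a p = aSum p := if_neg hp.ne_zero
  have hm := main hp h5
  have hb : bernoulli (p - 5) ∈ Z p := bernoulli_mem hp _ (by omega)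
  have h2m : (2 : ℚ) * bernoulli (p - 5) ∈ Z p := (Z p).mul_mem (two_mem p) hb
  rw [ha]
  have hcast : (((aSum p : ℤ) - 1 : ℤ) : ℚ) = (aSum p : ℚ) - 1 := by push_cast; ring
  refine ⟨?_, (hm.congr (by ring)).dvd_num⟩
  apply D.int_dvd
  rw [hcast]
  exact ((hm.mono (show 5 ≤ 6 by norm_num)).sub (D.of_mem h2m)).congr (by ring)

end Pool.Agent.Results.MP_558e64_nt.Main
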